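import Pool.Agent.helper64.PC.SpecK

set_option autoImplicit false

namespace Pool.Agent.PC

open Finset Polynomial Pool.Agent.PB

theorem PCR (hPCN : PCN_stmt) : PCR_stmt := by
  classical
  intro K _ _ _ c r B hB hBc hcK
  obtain ⟨Bi, hBi⟩ : ∃ Bi : Fin r → Finset (K × K), ∀ i, Bi i = B.image (fun z => (z.1, z.2 i)) :=
    ⟨fun i => B.image (fun z => (z.1, z.2 i)), fun i => rfl⟩
  have hPF : ∀ i, PF (Bi i) := by
    intro i z hz z' hz' h
    rw [hBi, mem_image] at hz hz'
    obtain ⟨w, hw, rfl⟩ := hz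
    obtain ⟨w', hw', rfl⟩ := hz'
    have : w = w' := hB w hw w' hw' h
    rw [this]
  have hcard : ∀ i, (Bi i).card = B.card := by
    intro i
    rw [hBi]
    apply card_image_of_injOn
    intro w hw w' hw' h
    have h0 : ((w.1, w.2 i) : K × K) = (w'.1, w'.2 i) := h
    exact hB w hw w' hw' (Prod.mk.inj h0).1
  obtain ⟨S, hS⟩ : ∃ S : Fin r → Finset (Fin (c + 1) → K),
      ∀ i, S i = univ.filter fun a : Fin (c + 1) → K => ∀ z ∈ Bi i, gr a z = true :=
    ⟨fun i => univ.filter fun a : Fin (c + 1) → K => ∀ z ∈ Bi i, gr a z = true, fun i => rfl⟩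
  have hSc : ∀ i, (S i).card * (Fintype.card K) ^ B.card ≤ (Fintype.card K) ^ (c + 1) := by
    intro i
    have h := hPCN K c (Bi i) (hPF i) (by rw [hcard]; exact hBc) hcK
    rw [hcard] at h
    rw [hS]
    exact h
  have hset : (univ.filter fun a : Fin r → Fin (c + 1) → K => B ⊆ grF a) = Fintype.piFinset S := by
    ext a
    rw [mem_filter, Fintype.mem_piFinset]
    constructor
    · rintro ⟨-, h⟩ i
      rw [hS, mem_filter]
      refine ⟨mem_univ _, ?_⟩
      intro z hz
      rw [hBi, mem_image] at hz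
      obtain ⟨w, hw, rfl⟩ := hz
      have h1 := h hw
      rw [grF, mem_filter] at h1
      have h2 := congrFun h1.2 i
      simp only [gr, decide_eq_true_eq]
      rw [h2]
      rfl
    · intro h
      refine ⟨mem_univ _, ?_⟩
      intro w hw
      rw [grF, mem_filter]
      refine ⟨mem_univ _, ?_⟩
      funext i
      have h1 := h i
      rw [hS, mem_filter] at h1
      have h2 := h1.2 (w.1, w.2 i) (by
        rw [hBi, mem_image]
        exact ⟨w, hw, rfl⟩)
      simp only [gr, decide_eq_true_eq] at h2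
      rw [h2]
      rfl
  rw [ct_eq, hset, Fintype.card_piFinset]
  have hprod : ∏ i, ((S i).card * (Fintype.card K) ^ B.card) ≤ ∏ _i : Fin r, (Fintype.card K) ^ (c + 1) :=
    Finset.prod_le_prod' (fun i _ => hSc i)
  rw [Finset.prod_mul_distrib, Finset.prod_const, Finset.prod_const, card_univ, Fintype.card_fin]
    at hprod
  have e1 : ((Fintype.card K) ^ r) ^ B.card = ((Fintype.card K) ^ B.card) ^ r := by
    rw [← pow_mul, ← pow_mul, mul_comm]
  have e2 : Fintype.card (Fin r → Fin (c + 1) → K) = ((Fintype.card K) ^ (c + 1)) ^ r := by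
    rw [Fintype.card_fun, Fintype.card_fun, Fintype.card_fin, Fintype.card_fin]
  rw [e1, e2]
  exact hprod

end Pool.Agent.PC
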